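import Pool.Agent.LE.StmtsH
import Pool.Agent.Helper65_Mob.Fvl
import Pool.Agent.Helper11_Mob.Gzb

/-!
# Module FVG: strong convergence of the finite volume resolvents
-/

set_option autoImplicit false

open MeasureTheory ProbabilityTheory Function Filter

open scoped ENNReal BigOperators InnerProductSpace Topology

noncomputable section

namespace Pool.Agent.LE.CH.H56

open Pool.Agent.Anderson Pool.Agent.Loc Pool.Agent.Mob Pool.Agent.Helper54.Bal Pool.Agent.LE.CH

variable {d : ℕ}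

/-- the restriction to a finite set as a vector -/
def vec (Λ : Finset (Site d)) (f : Site d → ℂ) : L2 d := ∑ x ∈ Λ, lp.single 2 x (f x)

theorem vec_apply (Λ : Finset (Site d)) (f : Site d → ℂ) (x : Site d) :
    vec Λ f x = if x ∈ Λ then f x else 0 := by
  unfold vec
  rw [coe_sum_apply]
  have h1 : ∀ y ∈ Λ, (lp.single 2 y (f y) : L2 d) x = if y = x then f x else 0 := by
    intro y _
    rw [lp.single_apply, Pi.single_apply]
    by_cases h : x = y
    · subst h
      simp
    · simp [h, Ne.symm h]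
  rw [Finset.sum_congr rfl h1, Finset.sum_ite_eq']

theorem norm_vec_sq (Λ : Finset (Site d)) (f : Site d → ℂ) :
    ‖vec Λ f‖ ^ 2 = ∑ x ∈ Λ, ‖f x‖ ^ 2 := by
  rw [L2.norm_sq, tsum_eq_sum (s := Λ)]
  · apply Finset.sum_congr rfl
    intro x hx
    rw [vec_apply, if_pos hx]
  · intro x hx
    rw [vec_apply, if_neg hx, norm_zero]
    norm_num

theorem tendsto_box : Tendsto (fun n : ℕ => box (0 : Site d) n) atTop atTop := by
  apply Filter.tendsto_atTop_finset_of_monotone
  · intro m n h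
    exact box_mono 0 h
  · intro x
    refine ⟨sd 0 x, ?_⟩
    rw [mem_box]

theorem tendsto_vec (f : L2 d) : Tendsto (fun n : ℕ => vec (box (0 : Site d) n) f) atTop (𝓝 f) := by
  have h := lp.hasSum_single (p := 2) (by norm_num) f
  exact h.comp tendsto_box

theorem sum_le_norm (Λ : Finset (Site d)) (f : L2 d) : ∑ x ∈ Λ, ‖f x‖ ^ 2 ≤ ‖f‖ ^ 2 := by
  rw [L2.norm_sq]
  exact (L2.summable_sq f).sum_le_tsum Λ (fun x _ => by positivity)

/-- the finite volume equation -/
theorem fv_add (V : Site d → ℝ) {z : ℂ} (hz : z.im ≠ 0) (u : L2 d) (n : ℕ) {y : Site d}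
    (hy : y ∈ box (0 : Site d) n) :
    fv V n z u y + G V z u y =
      fv V n z (Lap d (G V z u - vec (box (0 : Site d) n) (G V z u))) y := by
  obtain ⟨Λ, hΛ⟩ : ∃ Λ, Λ = box (0 : Site d) n := ⟨_, rfl⟩
  rw [← hΛ] at hy ⊢
  obtain ⟨φ, hφ⟩ : ∃ φ : L2 d, φ = G V z u := ⟨_, rfl⟩
  rw [← hφ]
  obtain ⟨b, hb⟩ : ∃ b : L2 d, b = Lap d (φ - vec Λ φ) := ⟨_, rfl⟩
  rw [← hb]
  have hdet := ((H11.gzb d V Λ y y).2.1 z hz).1
  have h1 : (z • (1 : Matrix Λ Λ ℂ) - HC V Λ).mulVec (fun v : Λ => φ v) =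
      fun x : Λ => -(u x) + b x := by
    funext x
    rw [Mob.H65.mul_fun]
    have h2 := G_eq (V := V) hz u x
    rw [← hφ] at h2
    have h3 : lap φ x = lap (fun v => if v ∈ Λ then φ v else 0) x + b x := by
      have h4 : b = Lap d φ - Lap d (vec Λ φ) := by
        rw [hb, map_sub]
      have h5 : b x = lap φ x - lap (vec Λ φ) x := by
        rw [h4]
        change (Lap d φ) x - (Lap d (vec Λ φ)) x = _
        rw [Lap_apply, Lap_apply]
      have h6 : (fun v => if v ∈ Λ then φ v else 0) = (vec Λ φ : Site d → ℂ) := by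
        funext v
        rw [vec_apply]
      rw [h5, h6]
      ring
    rw [h3] at h2
    linear_combination -h2
  have h2 : (fun v : Λ => φ v) = (z • (1 : Matrix Λ Λ ℂ) - HC V Λ)⁻¹.mulVec
      (fun x : Λ => -(u x) + b x) := by
    rw [← h1, Matrix.mulVec_mulVec, Matrix.nonsing_inv_mul _ (isUnit_iff_ne_zero.2 hdet),
      Matrix.one_mulVec]
  have h3 := congrFun h2 ⟨y, hy⟩
  have hfv : ∀ w : Site d → ℂ, fv V n z w y = ∑ v : Λ, gz V Λ z y v * w v := by
    intro w
    unfold fv
    rw [← hΛ, ← Finset.sum_coe_sort Λ (fun v => gz V Λ z y v * w v)]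
  have h4 : φ y = -fv V n z u y + fv V n z b y := by
    rw [hfv, hfv, h3]
    simp only [Matrix.mulVec, dotProduct, mul_add, Finset.sum_add_distrib]
    congr 1
    · rw [← Finset.sum_neg_distrib]
      apply Finset.sum_congr rfl
      intro v _
      unfold gz
      rw [dif_pos ⟨hy, v.2⟩]
      ring
    · apply Finset.sum_congr rfl
      intro v _
      unfold gz
      rw [dif_pos ⟨hy, v.2⟩]
  rw [h4]
  ring

/-- the bound for the finite volume resolvent -/
theorem fv_bound (fvw : FvwStmt) (V : Site d → ℝ) {z : ℂ} (hz : z.im ≠ 0) (w : Site d → ℂ)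
    (n : ℕ) : ∑ x ∈ box (0 : Site d) n, ‖fv V n z w x‖ ^ 2 ≤
      (|z.im| ^ 2)⁻¹ * ∑ x ∈ box (0 : Site d) n, ‖w x‖ ^ 2 := by
  obtain ⟨p, lam, hp, hsum, hz1, -⟩ := fvw d n V w
  rw [hz1 z hz, ← hsum, Finset.mul_sum]
  apply Finset.sum_le_sum
  intro j _
  have h1 : |z.im| ≤ ‖z - lam j‖ := by
    have h2 := Complex.abs_im_le_norm (z - lam j)
    rw [Complex.sub_im, Complex.ofReal_im, sub_zero] at h2
    exact h2
  have h3 : 0 < |z.im| := abs_pos.2 hz
  have h4 : |z.im| ^ 2 ≤ ‖z - lam j‖ ^ 2 := by gcongr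
  rw [div_eq_inv_mul]
  exact mul_le_mul_of_nonneg_right (inv_anti₀ (by positivity) h4) (hp j)

/-- FVG -/
theorem fvg (fvw : FvwStmt) : FvgStmt := by
  intro d V z u hz
  obtain ⟨φ, hφ⟩ : ∃ φ : L2 d, φ = G V z u := ⟨_, rfl⟩
  have h3 : 0 < |z.im| := abs_pos.2 hz
  have hr : Tendsto (fun n : ℕ => φ - vec (box (0 : Site d) n) φ) atTop (𝓝 0) := by
    have h1 := (tendsto_const_nhds (x := φ)).sub (tendsto_vec φ)
    rwa [sub_self] at h1
  have h0 : Tendsto (fun n : ℕ => (|z.im| ^ 2)⁻¹ *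
      ‖Lap d (φ - vec (box (0 : Site d) n) φ)‖ ^ 2) atTop (𝓝 0) := by
    have h1 := ((Lap d).continuous.tendsto 0).comp hr
    rw [map_zero] at h1
    have h2 := (h1.norm.pow 2).const_mul ((|z.im| ^ 2)⁻¹)
    rw [norm_zero, zero_pow two_ne_zero, mul_zero] at h2
    exact h2
  have hA : Tendsto (fun n : ℕ => ∑ x ∈ box (0 : Site d) n, ‖fv V n z u x + φ x‖ ^ 2)
      atTop (𝓝 0) := by
    refine squeeze_zero (fun n => Finset.sum_nonneg fun x _ => by positivity) (fun n => ?_) h0
    have e1 : ∑ x ∈ box (0 : Site d) n, ‖fv V n z u x + φ x‖ ^ 2 =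
        ∑ x ∈ box (0 : Site d) n,
          ‖fv V n z (Lap d (φ - vec (box (0 : Site d) n) φ)) x‖ ^ 2 := by
      apply Finset.sum_congr rfl
      intro x hx
      rw [hφ, fv_add V hz u n hx]
    rw [e1]
    refine (fv_bound fvw V hz _ n).trans ?_
    exact mul_le_mul_of_nonneg_left (sum_le_norm _ _) (by positivity)
  -- the vector of the finite volume solution
  have hw : Tendsto (fun n : ℕ => vec (box (0 : Site d) n) (fv V n z u)) atTop (𝓝 (-φ)) := by
    have e1 : ∀ n : ℕ, vec (box (0 : Site d) n) (fv V n z u) =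
        vec (box (0 : Site d) n) (fun x => fv V n z u x + φ x) -
          vec (box (0 : Site d) n) φ := by
      intro n
      unfold vec
      rw [← Finset.sum_sub_distrib]
      apply Finset.sum_congr rfl
      intro x _
      rw [← lp.single_sub]
      congr 1
      ring
    have e2 : Tendsto (fun n : ℕ => vec (box (0 : Site d) n) (fun x => fv V n z u x + φ x))
        atTop (𝓝 0) := by
      rw [tendsto_zero_iff_norm_tendsto_zero]
      have h5 : Tendsto (fun n : ℕ => √(∑ x ∈ box (0 : Site d) n, ‖fv V n z u x + φ x‖ ^ 2))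
          atTop (𝓝 (√0)) := hA.sqrt
      rw [Real.sqrt_zero] at h5
      refine h5.congr fun n => ?_
      rw [← norm_vec_sq, Real.sqrt_sq (norm_nonneg _)]
    have e3 := e2.sub (tendsto_vec φ)
    rw [zero_sub] at e3
    exact e3.congr fun n => (e1 n).symm
  rw [← hφ]
  refine ⟨hA, ?_, ?_⟩
  · have h5 := (hw.norm).pow 2
    rw [norm_neg] at h5
    refine h5.congr fun n => ?_
    rw [norm_vec_sq]
  · intro x
    have h5 := ((coord x).continuous.tendsto (-φ)).comp hw
    have h6 : (coord x) (-φ) = - φ x := by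
      rw [map_neg, coord_apply]
    rw [h6] at h5
    refine h5.congr' ?_
    filter_upwards [eventually_ge_atTop (sd 0 x)] with n hn
    change (coord x) (vec (box (0 : Site d) n) (fv V n z u)) = fv V n z u x
    rw [coord_apply, vec_apply, if_pos]
    rw [mem_box]
    exact hn

end Pool.Agent.LE.CH.H56
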